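import Pool.Agent.Helper72.Henon.Defs

set_option autoImplicit false

/-!
# The Hénon maps as endomorphisms of the plane minus a point
-/

open scoped LinearAlgebra.Projectivization
open MvPolynomial

namespace Pool.Agent.Helper72.Henon

noncomputable section

universe u

theorem aeval_smul_homog {K E : Type*} [Field K] [Field E] [Algebra K E] {n : ℕ}
    {q : MvPolynomial (Fin 3) K} (hq : q.IsHomogeneous n) (c : E) (w : Fin 3 → E) :
    aeval (c • w) q = c ^ n * aeval w q := by
  rw [aeval_def, aeval_def, eval₂_eq', eval₂_eq', Finset.mul_sum]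
  refine Finset.sum_congr rfl fun m hm => ?_
  have h1 : ∑ i, m i = n := by
    have := hq (mem_support_iff.1 hm)
    rw [Finsupp.weight_apply, Finsupp.sum_fintype _ _ (by simp)] at this
    simpa using this
  simp only [Pi.smul_apply, smul_eq_mul, mul_pow, Finset.prod_mul_distrib]
  rw [Finset.prod_pow_eq_pow_sum, h1]
  ring

/-- The map of an endomorphism in terms of any vector of homogeneous coordinates. -/
theorem map_mk {K : Type u} [Field K] (f : Endo K) (E : Type u) [Field E] [Algebra K E]
    (w : Fin 3 → E) (hw : w ≠ 0) (h : Projectivization.mk E w hw ≠ center E) :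
    f.map E ⟨Projectivization.mk E w hw, h⟩ =
      ⟨Projectivization.mk E (fun i => aeval w (f.form i))
        (f.ne_zero ((ne_center_iff w hw).1 h)),
        (ne_center_iff _ _).2 (f.maps E w ((ne_center_iff w hw).1 h))⟩ := by
  apply Subtype.ext
  change Projectivization.mk E _ _ = Projectivization.mk E _ _
  obtain ⟨a, ha⟩ := Projectivization.exists_smul_eq_mk_rep E w hw
  rw [Projectivization.mk_eq_mk_iff']
  refine ⟨(a : E) ^ f.degree, ?_⟩
  funext i
  rw [Pi.smul_apply, smul_eq_mul]
  change _ = aeval (Projectivization.mk E w hw).rep (f.form i)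
  rw [← ha, show (a • w : Fin 3 → E) = (a : E) • w from rfl, aeval_smul_homog (f.isHomogeneous i)]

/-- The endomorphism `(x : y : z) ↦ (y z^(d-1) : y^d - x z^(d-1) : z^d)`, which is the Hénon map
`(x, y) ↦ (y, y^d - x)` of the affine plane. -/
def hen (K : Type u) [Field K] (d : ℕ) (hd : 2 ≤ d) : Endo K where
  degree := d
  form := ![X 1 * X 2 ^ (d - 1), X 1 ^ d - X 0 * X 2 ^ (d - 1), X 2 ^ d]
  isHomogeneous i := by
    have e : 1 + (d - 1) = d := by omega
    fin_cases i
    · change (X 1 * X 2 ^ (d - 1) : MvPolynomial (Fin 3) K).IsHomogeneous d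
      have h := (isHomogeneous_X K (1 : Fin 3)).mul ((isHomogeneous_X K (2 : Fin 3)).pow (d - 1))
      rw [one_mul, e] at h
      exact h
    · change (X 1 ^ d - X 0 * X 2 ^ (d - 1) : MvPolynomial (Fin 3) K).IsHomogeneous d
      have h := (isHomogeneous_X K (0 : Fin 3)).mul ((isHomogeneous_X K (2 : Fin 3)).pow (d - 1))
      rw [one_mul, e] at h
      have h2 := (isHomogeneous_X K (1 : Fin 3)).pow d
      rw [one_mul] at h2
      exact h2.sub h
    · change (X 2 ^ d : MvPolynomial (Fin 3) K).IsHomogeneous d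
      have h2 := (isHomogeneous_X K (2 : Fin 3)).pow d
      rw [one_mul] at h2
      exact h2
  maps E _ _ w h := by
    change aeval w (X 1 ^ d - X 0 * X 2 ^ (d - 1) : MvPolynomial (Fin 3) K) ≠ 0 ∨
      aeval w (X 2 ^ d : MvPolynomial (Fin 3) K) ≠ 0
    simp only [map_sub, map_pow, map_mul, aeval_X]
    by_cases h2 : w 2 = 0
    · left
      rw [h2, zero_pow (by omega), mul_zero, sub_zero]
      rcases h with h | h
      · exact pow_ne_zero d h
      · exact absurd h2 h
    · right
      exact pow_ne_zero d h2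

theorem pt_eq {F : Type*} [Field F] (a b : F) (w : Fin 3 → F) (hw : w ≠ 0)
    (h : Projectivization.mk F w hw ≠ center F) (c : F) (hc : c • ![a, b, 1] = w) :
    (⟨Projectivization.mk F w hw, h⟩ : Surf F) = pt a b := by
  apply Subtype.ext
  change Projectivization.mk F _ _ = Projectivization.mk F _ _
  rw [Projectivization.mk_eq_mk_iff']
  exact ⟨c, hc⟩

/-- On the affine plane the map is `(a, b) ↦ (b, b^d - a)`. -/
theorem hen_pt {K : Type u} [Field K] {d : ℕ} (hd : 2 ≤ d) (E : Type u) [Field E] [Algebra K E]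
    (a b : E) : (hen K d hd).map E (pt a b) = pt b (b ^ d - a) := by
  unfold pt
  rw [map_mk]
  refine pt_eq _ _ _ _ _ 1 ?_
  rw [one_smul]
  funext i
  fin_cases i
  · change b = aeval ![a, b, 1] (X 1 * X 2 ^ (d - 1) : MvPolynomial (Fin 3) K)
    simp
  · change b ^ d - a = aeval ![a, b, 1] (X 1 ^ d - X 0 * X 2 ^ (d - 1) : MvPolynomial (Fin 3) K)
    simp
  · change 1 = aeval ![a, b, 1] (X 2 ^ d : MvPolynomial (Fin 3) K)
    simp

theorem pt_inj {F : Type*} [Field F] {a b a' b' : F} (h : pt a b = pt a' b') :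
    a = a' ∧ b = b' := by
  have h1 := congrArg Subtype.val h
  change Projectivization.mk F _ _ = Projectivization.mk F _ _ at h1
  rw [Projectivization.mk_eq_mk_iff'] at h1
  obtain ⟨c, hc⟩ := h1
  have h2 := congrFun hc 2
  have h0 := congrFun hc 0
  have h3 := congrFun hc 1
  simp only [Pi.smul_apply, smul_eq_mul, Matrix.cons_val_zero, Matrix.cons_val_one,
    Matrix.cons_val] at h2 h0 h3
  rw [mul_one] at h2
  rw [h2, one_mul] at h0 h3
  exact ⟨h0.symm, h3.symm⟩

/-- The `F`-points of the affine plane in `X`. -/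
def affine (F : Type*) [Field F] : Set (Surf F) := {x | ∃ a b : F, x = pt a b}

/-- The map is a bijection of the affine plane. -/
theorem hen_bij {K : Type u} [Field K] {d : ℕ} (hd : 2 ≤ d) (E : Type u) [Field E] [Algebra K E] :
    Set.BijOn ((hen K d hd).map E) (affine E) (affine E) := by
  refine ⟨?_, ?_, ?_⟩
  · rintro x ⟨a, b, rfl⟩
    exact ⟨b, b ^ d - a, hen_pt hd E a b⟩
  · rintro x ⟨a, b, rfl⟩ x' ⟨a', b', rfl⟩ h
    rw [hen_pt, hen_pt] at h
    obtain ⟨h1, h2⟩ := pt_inj h
    rw [h1] at h2 ⊢
    have : a = a' := by linear_combination -h2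
    rw [this]
  · rintro x ⟨a, b, rfl⟩
    refine ⟨pt (a ^ d - b) a, ⟨_, _, rfl⟩, ?_⟩
    rw [hen_pt]
    congr 1
    ring

/-- The coordinate functions of the iterates. -/
def T (R : Type*) [CommRing R] (d : ℕ) : ℕ → MvPolynomial (Fin 2) R
  | 0 => X 0
  | 1 => X 1
  | n + 2 => T R d (n + 1) ^ d - T R d n

theorem iterate_pt {K : Type u} [Field K] {d : ℕ} (hd : 2 ≤ d) (E : Type u) [Field E]
    [Algebra K E] (a b : E) (n : ℕ) :
    ((hen K d hd).map E)^[n] (pt a b) =
      pt (aeval ![a, b] (T K d n)) (aeval ![a, b] (T K d (n + 1))) := by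
  induction n with
  | zero => simp [T]
  | succ n ih =>
    rw [Function.iterate_succ_apply', ih, hen_pt]
    congr 1
    simp [T]

theorem degree_T (K : Type*) [Field K] {d : ℕ} (hd : 2 ≤ d) (n : ℕ) :
    (T K d n).totalDegree ≤ d ^ n ∧ (T K d (n + 1)).totalDegree = d ^ n := by
  induction n with
  | zero => simp [T, totalDegree_X]
  | succ n ih =>
    obtain ⟨h1, h2⟩ := ih
    have hlt : d ^ n < d ^ (n + 1) := Nat.pow_lt_pow_right (by omega) (by omega)
    refine ⟨by omega, ?_⟩
    have h3 : ∀ k : ℕ, (T K d (n + 1) ^ k).totalDegree = k * d ^ n := by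
      intro k
      have h0 : T K d (n + 1) ≠ 0 := by
        intro h
        rw [h, totalDegree_zero] at h2
        have : 0 < d ^ n := by positivity
        omega
      induction k with
      | zero => simp
      | succ k ihk =>
        rw [pow_succ, totalDegree_mul_of_isDomain (pow_ne_zero _ h0) h0, ihk, h2]
        ring
    change (T K d (n + 1) ^ d - T K d n).totalDegree = d ^ (n + 1)
    rw [sub_eq_add_neg, totalDegree_add_eq_left_of_totalDegree_lt, h3, pow_succ, mul_comm]
    rw [totalDegree_neg, h3]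
    have : d * d ^ n = d ^ (n + 1) := by rw [pow_succ, mul_comm]
    omega

end

end Pool.Agent.Helper72.Henon
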