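import Pool.Agent.Helper72.Henon.Orbit
import Pool.Agent.Helper46.AdelicPlane

set_option autoImplicit false

/-!
# The adelic limit of a subsequence of the orbit
-/

open scoped LinearAlgebra.Projectivization RestrictedProduct Nat
open NumberField IsDedekindDomain Filter Topology
open Pool.Agent.Helper46.AdelicPlane

namespace Pool.Agent.Helper72.Henon

noncomputable section

universe u

/-- The map modulo `M` is a permutation. -/
def perm (d M : ℕ) : Equiv.Perm (ZMod M × ZMod M) where
  toFun x := (x.2, x.2 ^ d - x.1)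
  invFun x := (x.1 ^ d - x.2, x.1)
  left_inv x := by simp
  right_inv x := by simp

variable {d : ℕ} (hd : 2 ≤ d)

include hd in
theorem perm_pow (M n : ℕ) : (perm d M ^ n) (0, 2) = ((y d n : ZMod M), (y d (n + 1) : ZMod M)) := by
  induction n with
  | zero => simp [y]
  | succ n ih =>
    rw [pow_succ', Equiv.Perm.mul_apply, ih]
    simp only [perm, Equiv.coe_fn_mk]
    rw [y_rec_cast hd (ZMod M) n]

include hd in
theorem mod_eventually (M : ℕ) (hM : 0 < M) :
    ∀ᶠ k in atTop, (y d k ! : ZMod M) = 0 ∧ (y d (k ! + 1) : ZMod M) = 2 := by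
  have : NeZero M := ⟨hM.ne'⟩
  filter_upwards [eventually_ge_atTop (Fintype.card (Equiv.Perm (ZMod M × ZMod M)))] with k hk
  have h1 : Fintype.card (Equiv.Perm (ZMod M × ZMod M)) ∣ k ! :=
    Nat.dvd_factorial Fintype.card_pos hk
  have h2 : perm d M ^ k ! = 1 := by
    obtain ⟨c, hc⟩ := h1
    rw [hc, pow_mul, pow_card_eq_one, one_pow]
  have h3 := perm_pow hd M k !
  rw [h2, Equiv.Perm.one_apply] at h3
  exact ⟨(congrArg Prod.fst h3).symm, (congrArg Prod.snd h3).symm⟩

include hd in
theorem fin_tendsto {K : Type*} [Field K] [NumberField K] (v : HeightOneSpectrum (𝓞 K)) :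
    Tendsto (fun k => ((y d k ! : ℕ) : v.adicCompletion K)) atTop (𝓝 0) ∧
    Tendsto (fun k => ((y d (k ! + 1) : ℕ) : v.adicCompletion K)) atTop (𝓝 2) := by
  obtain ⟨p, hp, hpv⟩ := exists_nat_mem v
  constructor
  · refine fin_tendsto_zero v p hpv _ fun j => ?_
    filter_upwards [mod_eventually hd (p ^ j) (pow_pos hp.pos j)] with k hk
    exact (ZMod.natCast_eq_zero_iff _ _).1 hk.1
  · have h1 : Tendsto (fun k => ((y d (k ! + 1) - 2 : ℕ) : v.adicCompletion K)) atTop (𝓝 0) := by
      refine fin_tendsto_zero v p hpv _ fun j => ?_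
      filter_upwards [mod_eventually hd (p ^ j) (pow_pos hp.pos j)] with k hk
      rw [← ZMod.natCast_eq_zero_iff, Nat.cast_sub (y_two_le hd _), hk.2]
      simp
    have h2 := h1.add_const (2 : v.adicCompletion K)
    rw [zero_add] at h2
    refine h2.congr fun k => ?_
    rw [Nat.cast_sub (y_two_le hd _)]
    push_cast
    ring

theorem tendsto_pt {F : Type*} [Field F] [TopologicalSpace F] {a b : ℕ → F} {a' b' : F}
    (ha : Tendsto a atTop (𝓝 a')) (hb : Tendsto b atTop (𝓝 b')) :
    Tendsto (fun k => pt (a k) (b k)) atTop (𝓝 (pt a' b')) := by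
  refine tendsto_subtype_rng.2 ?_
  refine tendsto_mk (fun k => vec_ab1 (a k) (b k)) (vec_ab1 a' b') ?_
  refine tendsto_pi_nhds.2 fun i => ?_
  fin_cases i
  · exact ha
  · exact hb
  · exact tendsto_const_nhds

/-- The point `(0 : 1 : 0)`, the attracting fixed point at infinity. -/
def infPt (F : Type*) [Field F] : Surf F :=
  ⟨Projectivization.mk F ![0, 1, 0] (vec_ne_zero'' 0 0), (ne_center_iff _ _).2 (Or.inl (by simp))⟩

include hd in
theorem ratio_tendsto {K : Type*} [Field K] [NumberField K] (v : InfinitePlace K) :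
    Tendsto (fun k => ((y d k : ℕ) : v.Completion) / ((y d (k + 1) : ℕ) : v.Completion)) atTop
      (𝓝 0) := by
  rw [tendsto_zero_iff_norm_tendsto_zero]
  have h1 : Tendsto (fun k => 2 * ((y d k : ℕ) : ℝ)⁻¹) atTop (𝓝 0) := by
    have h2 : Tendsto (fun k => ((y d k : ℕ) : ℝ)⁻¹) atTop (𝓝 0) :=
      tendsto_inv_atTop_zero.comp (tendsto_natCast_atTop_atTop.comp (y_tendsto hd))
    simpa using h2.const_mul 2
  refine squeeze_zero' (Eventually.of_forall fun k => norm_nonneg _) ?_ h1
  filter_upwards [eventually_ge_atTop 1] with k hk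
  rw [norm_div, norm_natCast_inf, norm_natCast_inf]
  have h2 : (0 : ℝ) < y d k := by exact_mod_cast y_pos hd (by omega)
  have h3 : (0 : ℝ) < y d (k + 1) := by exact_mod_cast y_pos hd (by omega)
  have h4 : (y d k : ℝ) ^ 2 ≤ 2 * y d (k + 1) := by
    have h5 : y d k ^ 2 ≤ y d k ^ d := Nat.pow_le_pow_right (y_pos hd (by omega)) hd
    exact_mod_cast h5.trans (y_lower hd k)
  rw [div_le_iff₀ h3]
  have h6 : (y d k : ℝ) = (y d k : ℝ)⁻¹ * (y d k : ℝ) ^ 2 := by field_simp
  calc (y d k : ℝ) = (y d k : ℝ)⁻¹ * (y d k : ℝ) ^ 2 := h6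
    _ ≤ (y d k : ℝ)⁻¹ * (2 * y d (k + 1)) := mul_le_mul_of_nonneg_left h4 (by positivity)
    _ = 2 * (y d k : ℝ)⁻¹ * y d (k + 1) := by ring

include hd in
theorem inf_tendsto {K : Type*} [Field K] [NumberField K] (v : InfinitePlace K) :
    Tendsto (fun k => pt ((y d k : ℕ) : v.Completion) ((y d (k + 1) : ℕ) : v.Completion)) atTop
      (𝓝 (infPt v.Completion)) := by
  refine tendsto_subtype_rng.2 ?_
  have h0 : ∀ k, ((y d (k + 1) : ℕ) : v.Completion) ≠ 0 := by
    intro k h
    have h1 := norm_natCast_inf v (y d (k + 1))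
    rw [h, norm_zero] at h1
    have h2 : (0 : ℝ) < y d (k + 1) := by exact_mod_cast y_pos hd (by omega)
    linarith
  have e : ∀ k, (pt ((y d k : ℕ) : v.Completion) ((y d (k + 1) : ℕ) : v.Completion)).1 =
      Projectivization.mk v.Completion
        ![((y d k : ℕ) : v.Completion) / ((y d (k + 1) : ℕ) : v.Completion), 1,
          (((y d (k + 1) : ℕ) : v.Completion))⁻¹] (vec_ne_zero'' _ _) := by
    intro k
    change Projectivization.mk _ _ _ = _
    rw [Projectivization.mk_eq_mk_iff']
    refine ⟨((y d (k + 1) : ℕ) : v.Completion), ?_⟩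
    funext i
    fin_cases i
    · simp [mul_div_cancel₀, h0 k]
    · simp
    · simp [h0 k]
  change Tendsto (fun k => (pt ((y d k : ℕ) : v.Completion)
    ((y d (k + 1) : ℕ) : v.Completion)).1) atTop _
  simp only [e]
  refine tendsto_mk (fun k => vec_ne_zero'' _ _) (vec_ne_zero'' 0 0) ?_
  refine tendsto_pi_nhds.2 fun i => ?_
  fin_cases i
  · exact ratio_tendsto hd v
  · exact tendsto_const_nhds
  · exact tendsto_inv_natCast v (fun k => y d (k + 1)) ((y_tendsto hd).comp (tendsto_add_atTop_nat 1))

theorem baseX_pt (K F : Type*) [Field K] [Field F] [Algebra K F] (a b : K) :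
    baseX K F (pt a b) = pt (algebraMap K F a) (algebraMap K F b) := by
  apply Subtype.ext
  change baseChange K F (Projectivization.mk K _ _) = Projectivization.mk F _ _
  have hne : (fun i => algebraMap K F ((![a, b, 1] : Fin 3 → K) i)) ≠ 0 := by
    intro h
    have := congrFun h 2
    simp at this
  rw [baseChange_mk K F ![a, b, 1] (vec_ab1 a b) hne]
  congr 1
  funext i
  fin_cases i <;> simp

theorem natCast_integral {K : Type*} [Field K] [NumberField K] (v : HeightOneSpectrum (𝓞 K))
    (m : ℕ) : ((m : ℕ) : v.adicCompletion K) ∈ v.adicCompletionIntegers K := natCast_mem _ m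

theorem pt_integral {K : Type*} [Field K] [NumberField K] (v : HeightOneSpectrum (𝓞 K))
    (a b : ℕ) : pt ((a : ℕ) : v.adicCompletion K) ((b : ℕ) : v.adicCompletion K) ∈
      integral K v := by
  refine ⟨_, vec_ab1 _ _, ?_, Or.inr (by simp), rfl⟩
  intro i
  fin_cases i
  · exact natCast_integral v a
  · exact natCast_integral v b
  · exact one_mem _

/-- The limit point: `(0 : 1 : 0)` at the archimedean places, and the point `P = (0 : 2 : 1)`
itself at the finite places. -/
def limitPt (K : Type*) [Field K] [NumberField K] : AdelicX K :=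
  (fun v => infPt v.Completion, (diag K (pt 0 2)).2)

theorem diag_fin {K : Type*} [Field K] [NumberField K] (a b : ℕ) :
    (diag K (pt (a : K) (b : K))).2 = RestrictedProduct.structureMap
      (fun v : HeightOneSpectrum (𝓞 K) => Surf (v.adicCompletion K)) (integral K) cofinite
      (fun v => ⟨_, pt_integral v a b⟩) := by
  apply RestrictedProduct.ext
  intro v
  rw [RestrictedProduct.structureMap_apply]
  change baseX K (v.adicCompletion K) (pt (a : K) (b : K)) = _
  rw [baseX_pt, map_natCast, map_natCast]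

include hd in
theorem limit_tendsto (K : Type*) [Field K] [NumberField K] :
    Tendsto (fun k : ℕ => diag K (pt (y d k ! : K) (y d (k ! + 1) : K))) atTop
      (𝓝 (limitPt K)) := by
  refine Tendsto.prodMk_nhds ?_ ?_
  · refine tendsto_pi_nhds.2 fun v => ?_
    have h1 := (inf_tendsto hd v).comp (tendsto_atTop_mono Nat.self_le_factorial tendsto_id)
    refine h1.congr fun k => ?_
    change pt _ _ = baseX K v.Completion _
    rw [baseX_pt, map_natCast, map_natCast]
  · have h1 : Tendsto (fun k : ℕ => RestrictedProduct.structureMap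
        (fun v : HeightOneSpectrum (𝓞 K) => Surf (v.adicCompletion K)) (integral K) cofinite
        (fun v => ⟨_, pt_integral v (y d k !) (y d (k ! + 1))⟩)) atTop
        (𝓝 (RestrictedProduct.structureMap
        (fun v : HeightOneSpectrum (𝓞 K) => Surf (v.adicCompletion K)) (integral K) cofinite
        (fun v => ⟨_, pt_integral v 0 2⟩))) := by
      refine (RestrictedProduct.isEmbedding_structureMap.continuous.tendsto _).comp ?_
      refine tendsto_pi_nhds.2 fun v => tendsto_subtype_rng.2 ?_
      have h2 := fin_tendsto hd v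
      have h3 := tendsto_pt h2.1 h2.2
      simpa using h3
    have e : (diag K (pt 0 2)).2 = RestrictedProduct.structureMap
        (fun v : HeightOneSpectrum (𝓞 K) => Surf (v.adicCompletion K)) (integral K) cofinite
        (fun v => ⟨_, pt_integral v 0 2⟩) := by
      have h2 := diag_fin (K := K) 0 2
      simpa using h2
    have h3 : (fun k : ℕ => (diag K (pt (y d k ! : K) (y d (k ! + 1) : K))).2) =
        fun k : ℕ => RestrictedProduct.structureMap
        (fun v : HeightOneSpectrum (𝓞 K) => Surf (v.adicCompletion K)) (integral K) cofinite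
        (fun v => ⟨_, pt_integral v (y d k !) (y d (k ! + 1))⟩) :=
      funext fun k => diag_fin _ _
    change Tendsto (fun k : ℕ => (diag K (pt (y d k ! : K) (y d (k ! + 1) : K))).2) atTop
      (𝓝 (diag K (pt 0 2)).2)
    rw [h3, e]
    exact h1

end

end Pool.Agent.Helper72.Henon
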