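import Mathlib
import Pool.Agent.Helper46.AdelicPlaneDefs

set_option autoImplicit false

/-!
# Endomorphisms of the projective plane minus a point, and adelic points

The surface `X = P² ∖ {(1 : 0 : 0)}`, its endomorphisms given by three forms, and its adelic points
over a number field (restricted product with respect to the integral points of the model
`P² ∖ {(1 : 0 : 0)}` over the ring of integers).
-/

open scoped LinearAlgebra.Projectivization RestrictedProduct
open NumberField IsDedekindDomain Filter Topology
open Pool.Agent.Helper46.AdelicPlane (P2 baseChange points)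

namespace Pool.Agent.Helper72.Henon

noncomputable section

universe u

lemma vec100 (F : Type*) [Field F] : (![1, 0, 0] : Fin 3 → F) ≠ 0 := by
  intro h
  have := congrFun h 0
  simp at this

/-- The point `(1 : 0 : 0)` of the projective plane. -/
def center (F : Type*) [Field F] : P2 F := Projectivization.mk F ![1, 0, 0] (vec100 F)

/-- The set of `F`-points of the surface `X = P² ∖ {(1 : 0 : 0)}`; for a topological field `F` it
has the topology induced by the one of `P²(F)`. -/
abbrev Surf (F : Type*) [Field F] : Type _ := {x : P2 F // x ≠ center F}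

theorem ne_center_iff {F : Type*} [Field F] (w : Fin 3 → F) (hw : w ≠ 0) :
    Projectivization.mk F w hw ≠ center F ↔ (w 1 ≠ 0 ∨ w 2 ≠ 0) := by
  rw [← not_iff_not, not_or, not_not, not_not, not_not, center,
    Projectivization.mk_eq_mk_iff']
  constructor
  · rintro ⟨a, ha⟩
    rw [← ha]
    simp
  · rintro ⟨h1, h2⟩
    refine ⟨w 0, ?_⟩
    ext i
    fin_cases i
    · simp
    · simp [h1]
    · simp [h2]

theorem rep_ne {F : Type*} [Field F] (x : Surf F) : x.1.rep 1 ≠ 0 ∨ x.1.rep 2 ≠ 0 := by
  rw [← ne_center_iff x.1.rep x.1.rep_nonzero, Projectivization.mk_rep]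
  exact x.2

/-- An endomorphism over `K` of the surface `X = P² ∖ {(1 : 0 : 0)}`: three forms over `K` of the
same degree such that at every point of `X`, over any extension field `E` of `K`, the second and the
third form do not both vanish; so the point whose homogeneous coordinates are the values of the
three forms is again a point of `X`. -/
structure Endo (K : Type u) [Field K] where
  /-- the degree of the forms -/
  degree : ℕ
  /-- the three forms -/
  form : Fin 3 → MvPolynomial (Fin 3) K
  isHomogeneous : ∀ i, (form i).IsHomogeneous degree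
  maps : ∀ (E : Type u) [Field E] [Algebra K E] (w : Fin 3 → E), (w 1 ≠ 0 ∨ w 2 ≠ 0) →
    (MvPolynomial.aeval w (form 1) ≠ 0 ∨ MvPolynomial.aeval w (form 2) ≠ 0)

theorem Endo.ne_zero {K : Type u} [Field K] (f : Endo K) {E : Type u} [Field E] [Algebra K E]
    {w : Fin 3 → E} (h : w 1 ≠ 0 ∨ w 2 ≠ 0) :
    (fun i => MvPolynomial.aeval w (f.form i)) ≠ 0 := by
  intro h0
  rcases f.maps E w h with h1 | h1
  · exact h1 (congrFun h0 1)
  · exact h1 (congrFun h0 2)

/-- The map induced by an endomorphism of `X` over `K` on the points of `X` over an extension field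
`E` of `K`: the values of the three forms at a vector of homogeneous coordinates. -/
def Endo.map {K : Type u} [Field K] (f : Endo K) (E : Type u) [Field E] [Algebra K E]
    (x : Surf E) : Surf E :=
  ⟨Projectivization.mk E (fun i => MvPolynomial.aeval x.1.rep (f.form i))
    (f.ne_zero (rep_ne x)), (ne_center_iff _ _).2 (f.maps E _ (rep_ne x))⟩

/-- The forward orbit `{fⁿ(P) : n ≥ 0}` of the point `P`. -/
def forwardOrbit {K : Type u} [Field K] (f : Endo K) (P : Surf K) : Set (Surf K) :=
  {x | ∃ n : ℕ, x = (f.map K)^[n] P}

lemma vec_ab1 {F : Type*} [Field F] (a b : F) : (![a, b, 1] : Fin 3 → F) ≠ 0 := by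
  intro h
  have := congrFun h 2
  simp at this

/-- The point `(a : b : 1)` of the affine plane `{x₂ ≠ 0}` inside `X`. -/
def pt {F : Type*} [Field F] (a b : F) : Surf F :=
  ⟨Projectivization.mk F ![a, b, 1] (vec_ab1 a b), (ne_center_iff _ _).2 (Or.inr (by simp))⟩

/-- The inclusion `X(K) → X(F)` for a field extension `F` of `K`. -/
def baseX (K F : Type*) [Field K] [Field F] [Algebra K F] (x : Surf K) : Surf F :=
  ⟨baseChange K F x.1, by
    have h := (Projectivization.mk_rep x.1).symm
    rw [h]
    have h2 : baseChange K F (Projectivization.mk K x.1.rep x.1.rep_nonzero) =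
        Projectivization.mk F (fun i => algebraMap K F (x.1.rep i)) (by
          intro h0
          apply x.1.rep_nonzero
          ext i
          exact (algebraMap K F).injective (by simpa using congrFun h0 i)) := rfl
    rw [h2]
    refine (ne_center_iff _ _).2 ?_
    simpa using rep_ne x⟩

/-- The `v`-integral points of the model `P² ∖ {(1 : 0 : 0)}` of `X` over the ring of integers:
the points with homogeneous coordinates `(w₀ : w₁ : w₂)`, all `v`-integral, such that `w₁` or `w₂`
is a `v`-adic unit. -/
def integral (K : Type*) [Field K] [NumberField K] (v : HeightOneSpectrum (𝓞 K)) :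
    Set (Surf (v.adicCompletion K)) :=
  {x | ∃ (w : Fin 3 → v.adicCompletion K) (hw : w ≠ 0),
    (∀ i, w i ∈ v.adicCompletionIntegers K) ∧
    (Valued.v (w 1) = 1 ∨ Valued.v (w 2) = 1) ∧ Projectivization.mk _ w hw = x.1}

/-- The space of adelic points of `X` over the number field `K`: the product of the spaces `X(K_v)`
over the archimedean places `v` and of the restricted product of the spaces `X(K_v)` over the
non-archimedean places `v` with respect to the sets of integral points. -/
abbrev AdelicX (K : Type*) [Field K] [NumberField K] : Type _ :=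
  (∀ v : InfinitePlace K, Surf v.Completion) ×
    Πʳ v : HeightOneSpectrum (𝓞 K), [Surf (v.adicCompletion K), integral K v]

theorem valued_algebraMap {K : Type*} [Field K] [NumberField K] (v : HeightOneSpectrum (𝓞 K))
    (k : K) : Valued.v (algebraMap K (v.adicCompletion K) k) = v.valuation K k :=
  HeightOneSpectrum.valuedAdicCompletion_eq_valuation' v k

theorem eventually_integral (K : Type*) [Field K] [NumberField K] (x : Surf K) :
    ∀ᶠ v : HeightOneSpectrum (𝓞 K) in cofinite, baseX K (v.adicCompletion K) x ∈ integral K v := by
  obtain ⟨j, hj0, hj⟩ : ∃ j : Fin 3, (j = 1 ∨ j = 2) ∧ x.1.rep j ≠ 0 := by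
    rcases rep_ne x with h | h
    · exact ⟨1, Or.inl rfl, h⟩
    · exact ⟨2, Or.inr rfl, h⟩
  have hfin : ∀ᶠ v : HeightOneSpectrum (𝓞 K) in cofinite, ∀ i : Fin 3,
      v.valuation K (x.1.rep i / x.1.rep j) ≤ 1 := by
    rw [Filter.eventually_all]
    intro i
    simp only [Filter.eventually_cofinite, not_le]
    exact HeightOneSpectrum.Support.finite (𝓞 K) _
  filter_upwards [hfin] with v hv
  have hj' : algebraMap K (v.adicCompletion K) (x.1.rep j) ≠ 0 := by
    rwa [Ne, map_eq_zero]
  have hne : (fun i => algebraMap K (v.adicCompletion K) (x.1.rep i / x.1.rep j)) ≠ 0 := by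
    intro h0
    have h1 := congrFun h0 j
    simp only [div_self hj, map_one, Pi.zero_apply] at h1
    exact one_ne_zero h1
  refine ⟨fun i => algebraMap K (v.adicCompletion K) (x.1.rep i / x.1.rep j), hne, ?_, ?_, ?_⟩
  · intro i
    rw [HeightOneSpectrum.mem_adicCompletionIntegers, valued_algebraMap]
    exact hv i
  · rcases hj0 with h | h
    · left
      subst h
      simp only [div_self hj, map_one]
    · right
      subst h
      simp only [div_self hj, map_one]
  · have h2 : (baseX K (v.adicCompletion K) x).1 =
        baseChange K (v.adicCompletion K) (Projectivization.mk K x.1.rep x.1.rep_nonzero) := by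
      rw [Projectivization.mk_rep]
      rfl
    have h3 : (fun i => algebraMap K (v.adicCompletion K) (x.1.rep i)) ≠ 0 := by
      intro h0
      exact hj' (congrFun h0 j)
    rw [h2]
    change _ = Projectivization.mk (v.adicCompletion K)
      (fun i => algebraMap K (v.adicCompletion K) (x.1.rep i)) h3
    rw [Projectivization.mk_eq_mk_iff']
    refine ⟨(algebraMap K (v.adicCompletion K) (x.1.rep j))⁻¹, ?_⟩
    funext i
    simp only [Pi.smul_apply, smul_eq_mul]
    rw [map_div₀, div_eq_inv_mul]

/-- The diagonal embedding `X(K) → X(𝔸_K)`. -/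
def diag (K : Type*) [Field K] [NumberField K] (x : Surf K) : AdelicX K :=
  (fun v => baseX K v.Completion x,
    ⟨fun v => baseX K (v.adicCompletion K) x, eventually_integral K x⟩)

/-- The adelic closure of a set of rational points of `X`: the closure of its diagonal image
in the space of adelic points. -/
def adelicClosure {K : Type*} [Field K] [NumberField K] (S : Set (Surf K)) : Set (AdelicX K) :=
  closure (diag K '' S)

/-- The adelic points of the closed subset `{q = 0}` of `X`, for a form `q`. -/
def adelicPoints {K : Type*} [Field K] [NumberField K] (q : MvPolynomial (Fin 3) K) :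
    Set (AdelicX K) :=
  {x | (∀ v, (x.1 v).1 ∈ points q v.Completion) ∧
    (∀ v, (x.2 v).1 ∈ points q (v.adicCompletion K))}

/-- The rational points of the closed subset `{q = 0}` of `X`, for a form `q`. -/
def rationalPoints {K : Type*} [Field K] (q : MvPolynomial (Fin 3) K) : Set (Surf K) :=
  {x | x.1 ∈ points q K}

end

end Pool.Agent.Helper72.Henon
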