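import Pool.Agent.Helper72.Henon.Orbit

set_option autoImplicit false

/-!
# The orbit is Zariski dense
-/

open Polynomial Filter Topology

namespace Pool.Agent.Helper72.Henon

noncomputable section

universe u

/-- Powers of a polynomial satisfy a dependency modulo `F`. -/
theorem dep {K : Type*} [Field K] (F : K[X][X]) (hF : F ≠ 0) (S : K[X][X]) :
    ∃ (c : Fin (F.natDegree + 1) → K[X]) (H : K[X][X]), (∃ j, c j ≠ 0) ∧
      ∑ j, C (c j) * S ^ (j : ℕ) = F * H := by
  classical
  let Q := FractionRing K[X]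
  have hinj : Function.Injective (algebraMap K[X] Q) := IsFractionRing.injective _ _
  let φ : K[X][X] →+* Q[X] := mapRingHom (algebraMap K[X] Q)
  have hφ : Function.Injective φ := map_injective _ hinj
  have hF' : φ F ≠ 0 := by
    intro h
    exact hF (hφ (by rw [h, map_zero]))
  have hdeg : (φ F).natDegree = F.natDegree := natDegree_map_eq_of_injective hinj F
  have : Module.Finite Q (AdjoinRoot (φ F)) := (AdjoinRoot.powerBasis hF').finite
  have hfin : Module.finrank Q (AdjoinRoot (φ F)) = F.natDegree := by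
    rw [(AdjoinRoot.powerBasis hF').finrank, AdjoinRoot.powerBasis_dim, hdeg]
  let v : Fin (F.natDegree + 1) → AdjoinRoot (φ F) :=
    fun j => AdjoinRoot.mk (φ F) (φ S ^ (j : ℕ))
  have hdep : ¬ LinearIndependent Q v := by
    intro h
    have := h.fintype_card_le_finrank
    rw [Fintype.card_fin, hfin] at this
    omega
  rw [Fintype.not_linearIndependent_iff] at hdep
  obtain ⟨g, hg, j0, hj0⟩ := hdep
  have hmk : AdjoinRoot.mk (φ F) (∑ j, C (g j) * φ S ^ (j : ℕ)) = 0 := by
    rw [map_sum, ← hg]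
    refine Finset.sum_congr rfl fun j _ => ?_
    rw [← smul_eq_C_mul, AdjoinRoot.smul_mk]
  obtain ⟨h, hh⟩ := AdjoinRoot.mk_eq_zero.1 hmk
  obtain ⟨b1, hb1⟩ := IsLocalization.exist_integer_multiples_of_finite (nonZeroDivisors K[X]) g
  obtain ⟨b2, hb2m, hb2⟩ := IsLocalization.integerNormalization_spec (nonZeroDivisors K[X]) h
  choose c' hc' using hb1
  have hb1' : (b1 : K[X]) ≠ 0 := nonZeroDivisors.coe_ne_zero b1
  have hb2' : (b2 : K[X]) ≠ 0 := nonZeroDivisors.ne_zero hb2m
  refine ⟨fun j => b2 * c' j, C (b1 : K[X]) * IsLocalization.integerNormalization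
    (nonZeroDivisors K[X]) h, ⟨j0, ?_⟩, ?_⟩
  · refine mul_ne_zero hb2' fun h0 => ?_
    have h1 := hc' j0
    rw [h0, map_zero, Algebra.smul_def] at h1
    rcases mul_eq_zero.1 h1.symm with h2 | h2
    · exact hb1' (hinj (by rw [h2, map_zero]))
    · exact hj0 h2
  · apply hφ
    rw [map_mul, map_mul, map_sum]
    have e1 : φ (IsLocalization.integerNormalization (nonZeroDivisors K[X]) h) =
        C (algebraMap K[X] Q b2) * h := by
      change Polynomial.map _ _ = _
      rw [hb2, ← smul_eq_C_mul, algebraMap_smul]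
    have e2 : φ (C (b1 : K[X])) = C (algebraMap K[X] Q b1) := by simp [φ]
    rw [e1, e2]
    have e3 : ∀ j, φ (C ((b2 : K[X]) * c' j) * S ^ (j : ℕ)) =
        C (algebraMap K[X] Q b1) * (C (algebraMap K[X] Q b2) * (C (g j) * φ S ^ (j : ℕ))) := by
      intro j
      have h1 := hc' j
      rw [Algebra.smul_def] at h1
      have h2 : φ (C ((b2 : K[X]) * c' j)) = C (algebraMap K[X] Q b2 * algebraMap K[X] Q (c' j)) := by
        simp [φ]
      rw [map_mul, map_pow, h2, h1]
      simp only [C_mul]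
      ring
    rw [Finset.sum_congr rfl fun j _ => e3 j, ← Finset.mul_sum, ← Finset.mul_sum, hh]
    ring

/-- A polynomial is bounded by a power. -/
theorem poly_bd (p : ℂ[X]) {a : ℕ} (hp : p.natDegree ≤ a) :
    ∃ B : ℝ, 0 ≤ B ∧ ∀ z : ℂ, 1 ≤ ‖z‖ → ‖p.eval z‖ ≤ B * ‖z‖ ^ a := by
  refine ⟨∑ i ∈ Finset.range (p.natDegree + 1), ‖p.coeff i‖,
    Finset.sum_nonneg fun _ _ => norm_nonneg _, fun z hz => ?_⟩
  rw [eval_eq_sum_range, Finset.sum_mul]
  refine (norm_sum_le _ _).trans (Finset.sum_le_sum fun i hi => ?_)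
  rw [norm_mul, norm_pow]
  refine mul_le_mul_of_nonneg_left (pow_le_pow_right₀ hz ?_) (norm_nonneg _)
  have := Finset.mem_range.1 hi
  omega

/-- A nonzero polynomial is bounded below along a sequence that tends to infinity. -/
theorem poly_low (p : ℂ[X]) (hp : p ≠ 0) {t : ℕ → ℂ} (ht : Tendsto (fun n => ‖t n‖) atTop atTop) :
    ∃ δ : ℝ, 0 < δ ∧ ∀ᶠ n in atTop, δ ≤ ‖p.eval (t n)‖ := by
  by_cases h : 0 < degree p
  · exact ⟨1, one_pos, (p.tendsto_norm_atTop h ht).eventually_ge_atTop 1⟩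
  · have h1 := eq_C_of_degree_le_zero (not_lt.1 h)
    have h2 : p.coeff 0 ≠ 0 := by
      intro h0
      rw [h0, C_0] at h1
      exact hp h1
    refine ⟨‖p.coeff 0‖, norm_pos_iff.2 h2, Eventually.of_forall fun n => ?_⟩
    rw [h1]
    simp

theorem growth (G : ℂ[X][X]) (hG : G ≠ 0) (a : ℕ) (ha : ∀ i, (G.coeff i).natDegree ≤ a)
    (t z : ℕ → ℂ) (ht : Tendsto (fun n => ‖t n‖) atTop atTop) (c : ℝ) (hc : 0 < c)
    (hz : ∀ᶠ n in atTop, c * ‖t n‖ ^ (a + 1) ≤ ‖z n‖) :
    ∀ᶠ n in atTop, G.evalEval (t n) (z n) ≠ 0 := by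
  choose B hB0 hB using fun i => poly_bd (G.coeff i) (ha i)
  obtain ⟨δ, hδ, hδ2⟩ := poly_low G.leadingCoeff (leadingCoeff_ne_zero.2 hG) ht
  set BB := ∑ i ∈ Finset.range G.natDegree, B i with hBB
  have hBB0 : 0 ≤ BB := Finset.sum_nonneg fun i _ => hB0 i
  filter_upwards [hδ2, hz, ht.eventually_ge_atTop 1, ht.eventually_gt_atTop (BB / (δ * c)),
    ht.eventually_ge_atTop (1 / c)] with n h1 h2 h3 h4 h5 h0
  have ht1 : 0 < ‖t n‖ := by linarith
  have hz1 : 1 ≤ ‖z n‖ := by
    refine le_trans ?_ h2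
    have : ‖t n‖ ≤ ‖t n‖ ^ (a + 1) := le_self_pow₀ h3 (by omega)
    have h6 : 1 ≤ c * ‖t n‖ := by
      rw [div_le_iff₀ hc] at h5
      linarith
    nlinarith
  have hev : G.evalEval (t n) (z n) = ∑ i ∈ Finset.range (G.natDegree + 1),
      (G.coeff i).eval (t n) * z n ^ i := by
    unfold evalEval
    rw [eval_eq_sum_range (p := G), eval_finsetSum]
    refine Finset.sum_congr rfl fun i _ => ?_
    simp
  rw [hev, Finset.sum_range_succ] at h0
  have h6 : ‖(G.coeff G.natDegree).eval (t n) * z n ^ G.natDegree‖ ≤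
      ∑ i ∈ Finset.range G.natDegree, ‖(G.coeff i).eval (t n) * z n ^ i‖ := by
    rw [← norm_neg, ← eq_neg_of_add_eq_zero_left h0]
    exact norm_sum_le _ _
  have h7 : (∑ i ∈ Finset.range G.natDegree, ‖(G.coeff i).eval (t n) * z n ^ i‖) * ‖z n‖ ≤
      BB * ‖t n‖ ^ a * ‖z n‖ ^ G.natDegree := by
    rw [Finset.sum_mul, hBB, Finset.sum_mul, Finset.sum_mul]
    refine Finset.sum_le_sum fun i hi => ?_
    rw [norm_mul, norm_pow, mul_assoc, ← pow_succ]
    refine mul_le_mul (hB i _ h3) (pow_le_pow_right₀ hz1 ?_) (by positivity)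
      (mul_nonneg (hB0 i) (by positivity))
    have := Finset.mem_range.1 hi
    omega
  have h8 : δ * ‖z n‖ ^ G.natDegree ≤ ‖(G.coeff G.natDegree).eval (t n) * z n ^ G.natDegree‖ := by
    rw [norm_mul, norm_pow]
    exact mul_le_mul_of_nonneg_right h1 (by positivity)
  have hzp : 0 < ‖z n‖ ^ G.natDegree := by positivity
  have h9 : δ * ‖z n‖ ≤ BB * ‖t n‖ ^ a := by
    have : (δ * ‖z n‖) * ‖z n‖ ^ G.natDegree ≤ (BB * ‖t n‖ ^ a) * ‖z n‖ ^ G.natDegree := by
      calc (δ * ‖z n‖) * ‖z n‖ ^ G.natDegree = (δ * ‖z n‖ ^ G.natDegree) * ‖z n‖ := by ring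
        _ ≤ (∑ i ∈ Finset.range G.natDegree, ‖(G.coeff i).eval (t n) * z n ^ i‖) * ‖z n‖ :=
            mul_le_mul_of_nonneg_right (h8.trans h6) (norm_nonneg _)
        _ ≤ _ := h7
    exact le_of_mul_le_mul_right this hzp
  have h10 : δ * (c * ‖t n‖ ^ (a + 1)) ≤ BB * ‖t n‖ ^ a :=
    (mul_le_mul_of_nonneg_left h2 hδ.le).trans h9
  have htp : 0 < ‖t n‖ ^ a := by positivity
  have h11 : δ * c * ‖t n‖ ≤ BB := by
    have : (δ * c * ‖t n‖) * ‖t n‖ ^ a ≤ BB * ‖t n‖ ^ a := by
      calc (δ * c * ‖t n‖) * ‖t n‖ ^ a = δ * (c * ‖t n‖ ^ (a + 1)) := by rw [pow_succ]; ring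
        _ ≤ _ := h10
    exact le_of_mul_le_mul_right this htp
  rw [div_lt_iff₀ (by positivity)] at h4
  linarith

/-- The backward polynomials: outer variable `y_{N-1}`, inner variable `y_N`. -/
def back (K : Type*) [Field K] (d : ℕ) : ℕ → K[X][X]
  | 0 => C X
  | 1 => X
  | n + 2 => back K d (n + 1) ^ d - back K d n

theorem back_eval (K : Type*) [Field K] {d : ℕ} (hd : 2 ≤ d) (N : ℕ) (m : ℕ) :
    (m ≤ N + 1 → (back K d m).evalEval (y d (N + 1) : K) (y d N : K) = y d (N + 1 - m)) ∧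
    (m + 1 ≤ N + 1 → (back K d (m + 1)).evalEval (y d (N + 1) : K) (y d N : K) =
      y d (N + 1 - (m + 1))) := by
  induction m with
  | zero =>
    constructor
    · intro _
      simp [back, evalEval_C]
    · intro _
      simp [back]
  | succ m ih =>
    refine ⟨ih.2, fun h => ?_⟩
    change ((back K d (m + 1)) ^ d - back K d m).evalEval _ _ = _
    rw [evalEval_sub, evalEval_pow, ih.1 (by omega), ih.2 (by omega)]
    obtain ⟨k, hk⟩ : ∃ k, N + 1 = k + (m + 2) := ⟨N + 1 - (m + 2), by omega⟩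
    have e1 : N + 1 - (m + 1) = k + 1 := by omega
    have e2 : N + 1 - m = k + 2 := by omega
    have e3 : N + 1 - (m + 1 + 1) = k := by omega
    rw [e1, e2, e3, y_rec_cast hd K k]
    ring

theorem y_growth {d : ℕ} (hd : 2 ≤ d) (m : ℕ) :
    ∃ A : ℕ, 0 < A ∧ ∀ n, y d n ^ (d ^ m) ≤ A * y d (n + m) := by
  induction m with
  | zero => exact ⟨1, one_pos, fun n => by simp⟩
  | succ m ih =>
    obtain ⟨A, hA, h⟩ := ih
    refine ⟨A ^ d * 2, by positivity, fun n => ?_⟩
    calc y d n ^ (d ^ (m + 1)) = (y d n ^ (d ^ m)) ^ d := by rw [pow_succ, pow_mul]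
      _ ≤ (A * y d (n + m)) ^ d := Nat.pow_le_pow_left (h n) d
      _ = A ^ d * y d (n + m) ^ d := mul_pow _ _ _
      _ ≤ A ^ d * (2 * y d (n + m + 1)) := Nat.mul_le_mul_left _ (y_lower hd _)
      _ = A ^ d * 2 * y d (n + (m + 1)) := by rw [mul_assoc, add_assoc]

/-- A polynomial in two variables that vanishes at all points of the orbit is zero. -/
theorem dense_aux {K : Type*} [Field K] [NumberField K] {d : ℕ} (hd : 2 ≤ d) (F : K[X][X])
    (h : ∀ n, F.evalEval (y d (n + 1) : K) (y d n : K) = 0) : F = 0 := by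
  by_contra hF
  set a := F.natDegree with ha
  obtain ⟨c, H, ⟨j0, hj0⟩, hrel⟩ := dep F hF (back K d (a + 1))
  obtain ⟨A, hA, hgr⟩ := y_growth hd (a + 1)
  obtain ⟨σ⟩ : Nonempty (K →+* ℂ) := inferInstance
  let G' : K[X][X] := ∑ j, (c j).map C * C (X ^ (j : ℕ))
  have hcoef : ∀ i j : ℕ, ∀ hj : j < a + 1, (G'.coeff i).coeff j = (c ⟨j, hj⟩).coeff i := by
    intro i j hj
    simp only [G', finsetSum_coeff, coeff_mul_C, coeff_map, coeff_C_mul, coeff_X_pow]
    rw [Finset.sum_eq_single (⟨j, hj⟩ : Fin (a + 1))]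
    · simp
    · intro b _ hb
      rw [if_neg, mul_zero]
      intro h2
      exact hb (Fin.ext h2.symm)
    · intro h2
      exact absurd (Finset.mem_univ _) h2
  have hdeg : ∀ i, (G'.coeff i).natDegree ≤ a := by
    intro i
    simp only [G', finsetSum_coeff, coeff_mul_C, coeff_map]
    refine natDegree_sum_le_of_forall_le _ _ fun j _ => ?_
    refine (natDegree_C_mul_le _ _).trans ?_
    rw [natDegree_X_pow]
    have := j.2
    omega
  have hG' : G' ≠ 0 := by
    intro h0
    apply hj0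
    ext i
    have h1 := hcoef i j0 j0.2
    rw [h0] at h1
    simpa using h1.symm
  let G : ℂ[X][X] := G'.map (mapRingHom σ)
  have hinj : Function.Injective (mapRingHom σ) := map_injective σ σ.injective
  have hG : G ≠ 0 := by
    intro h0
    exact hG' (map_injective _ hinj (by rw [Polynomial.map_zero]; exact h0))
  have hGd : ∀ i, (G.coeff i).natDegree ≤ a := by
    intro i
    change ((G'.map (mapRingHom σ)).coeff i).natDegree ≤ a
    rw [coeff_map]
    exact (natDegree_map_le).trans (hdeg i)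
  have hval : ∀ n, G.evalEval (y d n : ℂ) (y d (n + (a + 1)) : ℂ) = 0 := by
    intro n
    have h1 : G'.evalEval (y d n : K) (y d (n + (a + 1)) : K) = 0 := by
      have h2 := congrArg (evalEval (y d (n + a + 1) : K) (y d (n + a) : K)) hrel
      rw [evalEval_mul, h, zero_mul, evalEval_finsetSum] at h2
      simp only [G']
      rw [evalEval_finsetSum, ← h2]
      refine Finset.sum_congr rfl fun j _ => ?_
      rw [evalEval_mul, evalEval_mul, evalEval_map_C, evalEval_C, evalEval_C, evalEval_pow,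
        (back_eval K hd (n + a) (a + 1)).1 (by omega)]
      have e : n + a + 1 - (a + 1) = n := by omega
      rw [e, eval_pow, eval_X]
      rfl
    have h3 := congrArg σ h1
    rw [map_zero] at h3
    have h4 := map_mapRingHom_evalEval σ G' (y d n : K) (y d (n + (a + 1)) : K)
    rw [map_natCast, map_natCast] at h4
    rw [← h3, ← h4]
  have ht : Tendsto (fun n => ‖(y d n : ℂ)‖) atTop atTop := by
    simp only [Complex.norm_natCast]
    exact tendsto_natCast_atTop_atTop.comp (y_tendsto hd)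
  have hev := growth G hG a hGd (fun n => (y d n : ℂ)) (fun n => (y d (n + (a + 1)) : ℂ)) ht
    ((A : ℝ)⁻¹) (by positivity) (by
      filter_upwards [Filter.eventually_ge_atTop 1] with n hn
      rw [Complex.norm_natCast, Complex.norm_natCast, inv_mul_le_iff₀ (by positivity)]
      have h1 : y d n ^ (a + 1) ≤ y d n ^ (d ^ (a + 1)) := by
        refine Nat.pow_le_pow_right (y_pos hd (by omega)) ?_
        exact (Nat.lt_pow_self (by omega)).le
      exact_mod_cast h1.trans (hgr n))
  obtain ⟨n, hn⟩ := hev.exists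
  exact hn (hval n)

/-- The forward orbit of `(0 : 2 : 1)` is Zariski dense: no nonzero form vanishes on it. -/
theorem dense {K : Type u} [Field K] [NumberField K] {d : ℕ} (hd : 2 ≤ d) (e : ℕ)
    (q : MvPolynomial (Fin 3) K) (hq : q.IsHomogeneous e)
    (h : forwardOrbit (hen K d hd) (pt 0 2) ⊆ rationalPoints q) : q = 0 := by
  have hval : ∀ n, MvPolynomial.aeval ![(y d n : K), (y d (n + 1) : K), 1] q = 0 := by
    intro n
    have h1 := h ⟨n, rfl⟩
    rw [orbit_eq] at h1
    exact h1 _ (vec_ab1 _ _) rfl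
  let F : K[X][X] := MvPolynomial.aeval ![(X : K[X][X]), C X, 1] q
  have hF : ∀ a b : K, F.evalEval b a = MvPolynomial.aeval ![a, b, 1] q := by
    intro a b
    have h1 : F.evalEval b a = (evalEvalRingHom b a) F := rfl
    rw [h1]
    simp only [F]
    rw [MvPolynomial.aeval_def, MvPolynomial.aeval_def, MvPolynomial.hom_eval₂]
    congr 1
    · ext c
      simp
    · funext i
      fin_cases i
      · simp
      · simp
      · simp
  have hF0 : F = 0 := dense_aux hd F fun n => by rw [hF, hval]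
  have h3 : (MvPolynomial.X 2 : MvPolynomial (Fin 3) K) * q = 0 := by
    apply MvPolynomial.funext
    intro w
    rw [map_mul, MvPolynomial.eval_X, map_zero]
    by_cases hw : w 2 = 0
    · rw [hw, zero_mul]
    · have h4 : w = (w 2) • ![w 0 / w 2, w 1 / w 2, 1] := by
        funext i
        fin_cases i
        · simp [mul_div_cancel₀, hw]
        · simp [mul_div_cancel₀, hw]
        · simp
      have h5 : MvPolynomial.eval w q = 0 := by
        rw [← MvPolynomial.aeval_eq_eval]
        rw [h4, aeval_smul_homog hq, ← hF, hF0, evalEval_zero, mul_zero]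
      rw [h5, mul_zero]
  rcases mul_eq_zero.1 h3 with h4 | h4
  · exact absurd h4 (MvPolynomial.X_ne_zero 2)
  · exact h4

end

end Pool.Agent.Helper72.Henon
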