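import Pool.Agent.Helper72.Henon.Dense
import Pool.Agent.Helper72.Henon.Conv

set_option autoImplicit false

/-!
# The counterexample
-/

open scoped LinearAlgebra.Projectivization RestrictedProduct Nat
open NumberField IsDedekindDomain Filter Topology
open Pool.Agent.Helper46.AdelicPlane (P2 points)

namespace Pool.Agent.Helper72.Henon

noncomputable section

universe u

variable {d : ℕ} (hd : 2 ≤ d)

theorem infPt_ne {F : Type*} [Field F] (a b : F) : infPt F ≠ pt a b := by
  intro h
  have h1 := congrArg Subtype.val h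
  change Projectivization.mk F _ _ = Projectivization.mk F _ _ at h1
  rw [Projectivization.mk_eq_mk_iff'] at h1
  obtain ⟨c, hc⟩ := h1
  have h2 := congrFun hc 2
  have h3 := congrFun hc 1
  simp at h2 h3
  rw [h2, zero_mul] at h3
  exact zero_ne_one h3

theorem infPt_mem {K : Type*} [Field K] (F : Type*) [Field F] [Algebra K F] :
    (infPt F).1 ∈ points (MvPolynomial.X 0 : MvPolynomial (Fin 3) K) F := by
  intro w hw h
  change _ = Projectivization.mk F _ _ at h
  rw [Projectivization.mk_eq_mk_iff'] at h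
  obtain ⟨c, hc⟩ := h
  rw [MvPolynomial.aeval_X, ← hc]
  simp

theorem limitPt_mem (K : Type*) [Field K] [NumberField K] :
    limitPt K ∈ adelicPoints (MvPolynomial.X 0 : MvPolynomial (Fin 3) K) := by
  refine ⟨fun v => infPt_mem v.Completion, fun v => ?_⟩
  change (baseX K (v.adicCompletion K) (pt 0 2)).1 ∈ _
  rw [baseX_pt, map_zero, pt_mem_line]

theorem limitPt_ne (K : Type*) [Field K] [NumberField K] : limitPt K ≠ diag K (pt 0 2) := by
  intro h
  obtain ⟨v⟩ : Nonempty (InfinitePlace K) := inferInstance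
  have h1 : infPt v.Completion = baseX K v.Completion (pt 0 2) :=
    congrFun (congrArg Prod.fst h) v
  rw [baseX_pt] at h1
  exact infPt_ne _ _ h1

include hd in
theorem limitPt_closure (K : Type u) [Field K] [NumberField K] :
    limitPt K ∈ adelicClosure (forwardOrbit (hen K d hd) (pt 0 2)) := by
  refine mem_closure_of_tendsto (limit_tendsto hd K) (Eventually.of_forall fun k => ?_)
  exact ⟨_, ⟨k !, rfl⟩, by rw [orbit_eq]⟩

theorem inter_eq (K : Type u) [Field K] [NumberField K] :
    rationalPoints (MvPolynomial.X 0 : MvPolynomial (Fin 3) K) ∩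
      forwardOrbit (hen K d hd) (pt 0 2) = {pt 0 2} := by
  ext x
  constructor
  · rintro ⟨h1, n, rfl⟩
    rw [mem_line_iff] at h1
    rw [h1]
    rfl
  · intro h
    rw [Set.mem_singleton_iff.1 h]
    exact ⟨(mem_line_iff hd (K := K) 0).2 rfl, 0, rfl⟩

theorem main (K : Type u) [Field K] [NumberField K] (d : ℕ) (hd : 2 ≤ d) :
    ∃ (f : Endo K) (q : MvPolynomial (Fin 3) K) (P : Surf K),
      f.degree = d ∧
      (∀ (E : Type u) [Field E] [Algebra K E],
        (∀ a b : E, f.map E (pt a b) = pt b (b ^ d - a)) ∧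
        Set.BijOn (f.map E) (affine E) (affine E)) ∧
      (∀ n : ℕ, ∃ A B : MvPolynomial (Fin 2) K,
        A.totalDegree ≤ d ^ n ∧ B.totalDegree = d ^ n ∧
        ∀ (E : Type u) [Field E] [Algebra K E] (a b : E), (f.map E)^[n] (pt a b) =
          pt (MvPolynomial.aeval ![a, b] A) (MvPolynomial.aeval ![a, b] B)) ∧
      q = MvPolynomial.X 0 ∧
      (∀ (e : ℕ) (r : MvPolynomial (Fin 3) K), r.IsHomogeneous e →
        forwardOrbit f P ⊆ rationalPoints r → r = 0) ∧
      (∀ n : ℕ, (f.map K)^[n] P ∈ rationalPoints q ↔ n = 0) ∧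
      Function.Injective (fun n : ℕ => (f.map K)^[n] '' rationalPoints q) ∧
      adelicClosure (rationalPoints q ∩ forwardOrbit f P) = {diag K P} ∧
      (∃ Q ∈ adelicPoints q ∩ adelicClosure (forwardOrbit f P), Q ≠ diag K P) ∧
      adelicClosure (rationalPoints q ∩ forwardOrbit f P) ≠
        adelicPoints q ∩ adelicClosure (forwardOrbit f P) := by
  have hcl : adelicClosure (rationalPoints (MvPolynomial.X 0 : MvPolynomial (Fin 3) K) ∩
      forwardOrbit (hen K d hd) (pt 0 2)) = {diag K (pt 0 2)} := by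
    rw [inter_eq]
    unfold adelicClosure
    rw [Set.image_singleton]
    exact closure_singleton
  refine ⟨hen K d hd, MvPolynomial.X 0, pt 0 2, rfl, ?_, ?_, rfl, dense hd, mem_line_iff hd,
    images_injective hd K, hcl, ⟨limitPt K, ⟨limitPt_mem K, limitPt_closure hd K⟩, limitPt_ne K⟩, ?_⟩
  · intro E _ _
    exact ⟨hen_pt hd E, hen_bij hd E⟩
  · intro n
    exact ⟨T K d n, T K d (n + 1), (degree_T K hd n).1, (degree_T K hd n).2,
      fun E _ _ a b => iterate_pt hd E a b n⟩
  · rw [hcl]
    intro h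
    have h1 : limitPt K ∈ ({diag K (pt 0 2)} : Set (AdelicX K)) := by
      rw [h]
      exact ⟨limitPt_mem K, limitPt_closure hd K⟩
    exact limitPt_ne K h1

end

end Pool.Agent.Helper72.Henon
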