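import Pool.Agent.Helper72.Henon.Basic

set_option autoImplicit false

/-!
# The orbit of the point (0, 2)
-/

open scoped LinearAlgebra.Projectivization
open Filter Topology

namespace Pool.Agent.Helper72.Henon

noncomputable section

universe u

/-- The coordinates of the orbit. -/
def y (d : ℕ) : ℕ → ℕ
  | 0 => 0
  | 1 => 2
  | n + 2 => y d (n + 1) ^ d - y d n

variable {d : ℕ} (hd : 2 ≤ d)

include hd in
theorem y_aux (n : ℕ) : y d n < y d (n + 1) ∧ 2 ≤ y d (n + 1) ∧
    y d (n + 2) + y d n = y d (n + 1) ^ d := by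
  induction n with
  | zero =>
    refine ⟨by simp [y], by simp [y], ?_⟩
    simp [y]
  | succ n ih =>
    obtain ⟨h1, h2, h3⟩ := ih
    have h4 : y d (n + 1) ^ 2 ≤ y d (n + 1) ^ d := Nat.pow_le_pow_right (by omega) hd
    have h5 : y d (n + 1) < y d (n + 2) := by nlinarith
    have h6 : y d (n + 2) ^ 2 ≤ y d (n + 2) ^ d := Nat.pow_le_pow_right (by omega) hd
    refine ⟨h5, le_trans h2 h5.le, ?_⟩
    have h7 : y d (n + 3) = y d (n + 2) ^ d - y d (n + 1) := rfl
    change y d (n + 3) + y d (n + 1) = y d (n + 2) ^ d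
    have h8 : y d (n + 1) ≤ y d (n + 2) ^ d := by nlinarith
    omega

include hd in
theorem y_rec (n : ℕ) : y d (n + 2) + y d n = y d (n + 1) ^ d := (y_aux hd n).2.2

include hd in
theorem y_strictMono : StrictMono (y d) := strictMono_nat_of_lt_succ fun n => (y_aux hd n).1

include hd in
theorem y_two_le (n : ℕ) : 2 ≤ y d (n + 1) := (y_aux hd n).2.1

include hd in
theorem y_pos {n : ℕ} (hn : n ≠ 0) : 0 < y d n := by
  obtain ⟨m, rfl⟩ := Nat.exists_eq_succ_of_ne_zero hn
  exact lt_of_lt_of_le (by norm_num) (y_two_le hd m)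

include hd in
theorem y_le (n : ℕ) : n ≤ y d n := (y_strictMono hd).id_le n

include hd in
theorem y_tendsto : Tendsto (y d) atTop atTop := (y_strictMono hd).tendsto_atTop

include hd in
theorem y_rec_cast (R : Type*) [CommRing R] (n : ℕ) :
    (y d (n + 2) : R) = (y d (n + 1) : R) ^ d - y d n := by
  rw [← Nat.cast_pow, ← y_rec hd n]
  push_cast
  ring

include hd in
/-- The next value is at least half of the `d`-th power. -/
theorem y_lower (n : ℕ) : y d n ^ d ≤ 2 * y d (n + 1) := by
  cases n with
  | zero =>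
    have h0 : y d 0 = 0 := rfl
    rw [h0, zero_pow (by omega)]
    exact Nat.zero_le _
  | succ n =>
    have h1 := y_rec hd n
    have h2 : y d n < y d (n + 1) := (y_aux hd n).1
    have h3 : y d (n + 1) ^ 2 ≤ y d (n + 1) ^ d :=
      Nat.pow_le_pow_right (by have := y_two_le hd n; omega) hd
    have h4 := y_two_le hd n
    change y d (n + 1) ^ d ≤ 2 * y d (n + 2)
    nlinarith

/-- The base point `(0, 2)` of the affine plane. -/
def base (F : Type*) [Field F] : Surf F := pt 0 2

theorem orbit_eq {K : Type u} [Field K] (E : Type u) [Field E] [Algebra K E] (n : ℕ) :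
    ((hen K d hd).map E)^[n] (pt 0 2) = pt (y d n : E) (y d (n + 1) : E) := by
  induction n with
  | zero => simp [y]
  | succ n ih =>
    rw [Function.iterate_succ_apply', ih, hen_pt]
    congr 1
    exact (y_rec_cast hd E n).symm

theorem pt_mem_line {K : Type*} [Field K] (F : Type*) [Field F] [Algebra K F] (a b : F) :
    (pt a b).1 ∈ Pool.Agent.Helper46.AdelicPlane.points (MvPolynomial.X 0 : MvPolynomial (Fin 3) K) F
      ↔ a = 0 := by
  constructor
  · intro h
    have := h ![a, b, 1] (vec_ab1 a b) rfl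
    simpa using this
  · rintro rfl w hw h
    change _ = Projectivization.mk F _ _ at h
    rw [Projectivization.mk_eq_mk_iff'] at h
    obtain ⟨c, hc⟩ := h
    rw [MvPolynomial.aeval_X, ← hc]
    simp

theorem mem_line_iff {K : Type u} [Field K] [CharZero K] (n : ℕ) :
    ((hen K d hd).map K)^[n] (pt 0 2) ∈
      rationalPoints (MvPolynomial.X 0 : MvPolynomial (Fin 3) K) ↔ n = 0 := by
  rw [orbit_eq]
  change (pt (y d n : K) (y d (n + 1) : K)).1 ∈ Pool.Agent.Helper46.AdelicPlane.points
    (MvPolynomial.X 0 : MvPolynomial (Fin 3) K) K ↔ _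
  rw [pt_mem_line, Nat.cast_eq_zero]
  constructor
  · intro h
    by_contra hn
    exact (y_pos hd hn).ne' h
  · rintro rfl
    rfl

/-- The map preserves the line at infinity, minus the point `(1 : 0 : 0)`. -/
theorem compl_affine {F : Type*} [Field F] (x : Surf F) : x ∈ affine F ↔ x.1.rep 2 ≠ 0 := by
  constructor
  · rintro ⟨a, b, rfl⟩
    obtain ⟨c, hc⟩ := Projectivization.exists_smul_eq_mk_rep F _ (vec_ab1 a b)
    change (Projectivization.mk F _ (vec_ab1 a b)).rep 2 ≠ 0
    rw [← hc]
    simp [Units.smul_def]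
  · intro h
    refine ⟨x.1.rep 0 / x.1.rep 2, x.1.rep 1 / x.1.rep 2, ?_⟩
    apply Subtype.ext
    change _ = Projectivization.mk F _ _
    rw [← Projectivization.mk_rep x.1, Projectivization.mk_eq_mk_iff']
    refine ⟨x.1.rep 2, ?_⟩
    funext i
    rw [Projectivization.mk_rep]
    fin_cases i
    · simp [mul_div_cancel₀, h]
    · simp [mul_div_cancel₀, h]
    · simp

theorem map_affine_iff {K : Type u} [Field K] (E : Type u) [Field E] [Algebra K E] (x : Surf E) :
    (hen K d hd).map E x ∈ affine E ↔ x ∈ affine E := by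
  constructor
  · intro h
    by_contra hx
    rw [compl_affine, not_not] at hx
    obtain ⟨a, b, hab⟩ := h
    have h1 := congrArg Subtype.val hab
    change Projectivization.mk E _ _ = Projectivization.mk E _ _ at h1
    rw [Projectivization.mk_eq_mk_iff'] at h1
    obtain ⟨c, hc⟩ := h1
    have h2 := congrFun hc 2
    change c * 1 = MvPolynomial.aeval x.1.rep (MvPolynomial.X 2 ^ d : MvPolynomial (Fin 3) K) at h2
    rw [map_pow, MvPolynomial.aeval_X, hx, zero_pow (by omega), mul_one] at h2
    rw [h2, zero_smul] at hc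
    exact (hen K d hd).ne_zero (rep_ne x) hc.symm
  · exact fun h => (hen_bij hd E).mapsTo h

theorem iterate_affine_iff {K : Type u} [Field K] (E : Type u) [Field E] [Algebra K E] (n : ℕ)
    (x : Surf E) : ((hen K d hd).map E)^[n] x ∈ affine E ↔ x ∈ affine E := by
  induction n with
  | zero => rfl
  | succ n ih => rw [Function.iterate_succ_apply', map_affine_iff, ih]

theorem iterate_injOn {K : Type u} [Field K] (E : Type u) [Field E] [Algebra K E] (n : ℕ) :
    Set.InjOn ((hen K d hd).map E)^[n] (affine E) :=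
  ((hen_bij hd E).iterate n).injOn

/-- The images of the line under the iterates are pairwise distinct. -/
theorem images_injective (K : Type u) [Field K] [CharZero K] :
    Function.Injective fun n : ℕ => ((hen K d hd).map K)^[n] ''
      rationalPoints (MvPolynomial.X 0 : MvPolynomial (Fin 3) K) := by
  have key : ∀ n k : ℕ, 0 < k → ((hen K d hd).map K)^[n] ''
      rationalPoints (MvPolynomial.X 0 : MvPolynomial (Fin 3) K) ≠
      ((hen K d hd).map K)^[n + k] '' rationalPoints (MvPolynomial.X 0) := by
    intro n k hk h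
    have hP : (pt 0 2 : Surf K) ∈ rationalPoints (MvPolynomial.X 0 : MvPolynomial (Fin 3) K) :=
      (mem_line_iff hd (K := K) 0).2 rfl
    have h1 : ((hen K d hd).map K)^[n + k] (pt 0 2) ∈ ((hen K d hd).map K)^[n] ''
        rationalPoints (MvPolynomial.X 0 : MvPolynomial (Fin 3) K) := by
      rw [h]
      exact ⟨_, hP, rfl⟩
    obtain ⟨z, hz, hz2⟩ := h1
    rw [Function.iterate_add_apply] at hz2
    have haff : (pt 0 2 : Surf K) ∈ affine K := ⟨_, _, rfl⟩
    have hk1 : ((hen K d hd).map K)^[k] (pt 0 2) ∈ affine K := (iterate_affine_iff hd K k _).2 haff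
    have hz3 : z ∈ affine K := by
      have h3 := iterate_affine_iff hd (K := K) K n z
      rw [hz2] at h3
      exact h3.1 ((iterate_affine_iff hd (K := K) K n _).2 hk1)
    have h2 := iterate_injOn hd K n hz3 hk1 hz2
    rw [h2, mem_line_iff] at hz
    omega
  intro n m h
  rcases lt_trichotomy n m with h1 | h1 | h1
  · obtain ⟨k, rfl⟩ := Nat.exists_eq_add_of_lt h1
    exact absurd h (by rw [add_assoc]; exact key n (k + 1) (by omega))
  · exact h1
  · obtain ⟨k, rfl⟩ := Nat.exists_eq_add_of_lt h1
    exact absurd h.symm (by rw [add_assoc]; exact key m (k + 1) (by omega))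

end

end Pool.Agent.Helper72.Henon
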